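import Pool.Agent.Run7.h917.PartOneFinal
import Pool.Agent.Run7.h917.PartTwo

/-!
# Every Dini space is the primitive ideal space of a separable nuclear C*-algebra

Paper proof: see the comment in `Pool/Agent/Run7/h917/Paper.lean`.
Lean proof by helper917 (Part II, T1, T2, T3) and helper18 (T4, T5).
-/

universe u

/-- **Q1 of Kirchberg and Rordam, affirmative answer.**  Every Dini space (second countable, locally
compact, `T0` and sober) is homeomorphic to the primitive ideal space of a separable nuclear
C*-algebra. -/
theorem Pool.Agent.Results.MP_6e5c74_an.DiniPrim.result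
    (X : Type u) [TopologicalSpace X] [SecondCountableTopology X] [LocallyCompactSpace X]
    [T0Space X] [QuasiSober X] :
    ∃ (A : Type) (_ : NonUnitalCStarAlgebra A) (_ : PartialOrder A) (_ : StarOrderedRing A),
      TopologicalSpace.SeparableSpace A ∧ Run7.h917.IsNuclear A ∧
        Nonempty (Run7.h917.Prim A ≃ₜ X) := by
  obtain ⟨P, _, _, _, _, σ, ⟨e⟩⟩ := Run7.h917.exists_ptSys X
  exact Run7.h917.exists_algebra σ e
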